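import Mathlib

namespace Pool.Agent.Results.MP_5adcc8_co.Unb

/-- a binary matrix with `m` rows and `n` columns -/
structure BM where
  m : ℕ
  n : ℕ
  e : Fin m → Fin n → Bool

/-- `P` is an interval minor of `M`: rows and columns of `M` are cut into consecutive nonempty
intervals so that each block corresponding to a 1 of `P` contains a 1 of `M` -/
def Minor (P M : BM) : Prop :=
  ∃ (f : Fin M.m → Fin P.m) (g : Fin M.n → Fin P.n),
    Monotone f ∧ Function.Surjective f ∧ Monotone g ∧ Function.Surjective g ∧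
    ∀ i j, P.e i j = true → ∃ r c, f r = i ∧ g c = j ∧ M.e r c = true

def Av (F : Set BM) : Set BM := {M | ∀ P ∈ F, ¬ Minor P M}

/-- change the entry `(r, c)` to 1 -/
def setOne (M : BM) (r : Fin M.m) (c : Fin M.n) : BM :=
  ⟨M.m, M.n, fun i j => if i = r ∧ j = c then true else M.e i j⟩

def Critical (C : Set BM) (M : BM) : Prop :=
  M ∈ C ∧ ∀ r c, M.e r c = false → setOne M r c ∉ C

/-- number of maximal blocks of consecutive zeros of a 0/1 word (counted by first positions) -/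
def runs {k : ℕ} (w : Fin k → Bool) : ℕ :=
  (Finset.univ.filter fun i : Fin k =>
    w i = false ∧ ∀ j : Fin k, j.val + 1 = i.val → w j = true).card

def Bdd (C : Set BM) : Prop :=
  ∃ B : ℕ, ∀ M, Critical C M →
    (∀ r, runs (fun c => M.e r c) ≤ B) ∧ (∀ c, runs (fun r => M.e r c) ≤ B)

/-- `Q` arises from `P` by inserting empty rows and columns -/
def Ins (P Q : BM) : Prop :=
  ∃ (a : Fin P.m → Fin Q.m) (b : Fin P.n → Fin Q.n), StrictMono a ∧ StrictMono b ∧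
    ∀ i j, Q.e i j = true ↔ ∃ i' j', a i' = i ∧ b j' = j ∧ P.e i' j' = true

def D3 : BM := ⟨3, 3, fun i j => decide (i = j)⟩
def D3p : BM := ⟨3, 4, fun i j => decide (i.val + 1 = j.val)⟩
def X : BM := ⟨4, 3, fun i j => decide ((i.val = 0 ∧ j.val = 0) ∨ (i.val = 1 ∧ j.val = 1) ∨
  (i.val = 2 ∧ j.val = 0) ∨ (i.val = 3 ∧ j.val = 2))⟩

lemma exists_retr {k m : ℕ} (hk : 0 < k) (ρ : Fin k → Fin m) (h : StrictMono ρ) :
    ∃ f : Fin m → Fin k, Monotone f ∧ ∀ i, f (ρ i) = i := by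
  classical
  let S : Fin m → Finset (Fin k) := fun r => Finset.univ.filter fun i => ρ i ≤ r
  refine ⟨fun r => if hr : (S r).Nonempty then (S r).max' hr else ⟨0, hk⟩, ?_, ?_⟩
  · intro r s hrs
    have hsub : S r ⊆ S s := by
      intro i hi
      simp only [S, Finset.mem_filter, Finset.mem_univ, true_and] at hi ⊢
      exact hi.trans hrs
    by_cases hr : (S r).Nonempty
    · have hs : (S s).Nonempty := hr.mono hsub
      simp only [hr, hs, dif_pos]
      exact Finset.max'_subset hr hsub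
    · simp only [hr, dif_neg, not_false_eq_true]
      exact Fin.le_def.2 (Nat.zero_le _)
  · intro i
    have hi : i ∈ S (ρ i) := by simp [S]
    have hr : (S (ρ i)).Nonempty := ⟨i, hi⟩
    simp only [hr, dif_pos]
    apply le_antisymm
    · apply Finset.max'_le
      intro y hy
      simp only [S, Finset.mem_filter, Finset.mem_univ, true_and] at hy
      exact h.le_iff_le.1 hy
    · exact Finset.le_max' _ _ hi

lemma minor_of_sub (P M : BM) (h1 : 0 < P.m) (h2 : 0 < P.n) (ρ : Fin P.m → Fin M.m)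
    (γ : Fin P.n → Fin M.n) (hρ : StrictMono ρ) (hγ : StrictMono γ)
    (h : ∀ i j, P.e i j = true → M.e (ρ i) (γ j) = true) : Minor P M := by
  obtain ⟨f, hf, hf'⟩ := exists_retr h1 ρ hρ
  obtain ⟨g, hg, hg'⟩ := exists_retr h2 γ hγ
  exact ⟨f, g, hf, fun i => ⟨_, hf' i⟩, hg, fun i => ⟨_, hg' i⟩,
    fun i j hij => ⟨_, _, hf' i, hg' j, h i j hij⟩⟩

def Chain (M : BM) : Prop :=
  ∃ (r0 r1 r2 : Fin M.m) (c0 c1 c2 : Fin M.n), r0 < r1 ∧ r1 < r2 ∧ c0 < c1 ∧ c1 < c2 ∧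
    M.e r0 c0 = true ∧ M.e r1 c1 = true ∧ M.e r2 c2 = true

lemma d3_of_chain (M : BM) (h : Chain M) : Minor D3 M := by
  obtain ⟨r0, r1, r2, c0, c1, c2, a, b, c, d, e0, e1, e2⟩ := h
  refine minor_of_sub D3 M (by decide) (by decide) (![r0, r1, r2] : Fin 3 → _)
    (![c0, c1, c2] : Fin 3 → _) ?_ ?_ ?_
  · refine Fin.strictMono_iff_lt_succ.2 fun i => ?_
    fin_cases i <;> simpa
  · refine Fin.strictMono_iff_lt_succ.2 fun i => ?_
    fin_cases i <;> simpa
  · intro (i : Fin 3) (j : Fin 3) hij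
    have : i = j := by simpa [D3] using hij
    subst this
    fin_cases i <;> simpa

lemma lt_of_mono {a b : ℕ} {f : Fin a → Fin b} (hf : Monotone f) {x y : Fin a}
    (h : (f x).val < (f y).val) : x < y := by
  by_contra hxy
  have := hf (not_lt.1 hxy)
  rw [Fin.le_def] at this
  omega

lemma chain_of_d3 (M : BM) (h : Minor D3 M) : Chain M := by
  obtain ⟨f, g, hf, -, hg, -, h⟩ := h
  obtain ⟨r0, c0, a0, b0, e0⟩ := h (0 : Fin 3) (0 : Fin 3) (by decide)
  obtain ⟨r1, c1, a1, b1, e1⟩ := h (1 : Fin 3) (1 : Fin 3) (by decide)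
  obtain ⟨r2, c2, a2, b2, e2⟩ := h (2 : Fin 3) (2 : Fin 3) (by decide)
  refine ⟨r0, r1, r2, c0, c1, c2, lt_of_mono hf ?_, lt_of_mono hf ?_, lt_of_mono hg ?_,
    lt_of_mono hg ?_, e0, e1, e2⟩
  · rw [a0, a1]; decide
  · rw [a1, a2]; decide
  · rw [b0, b1]; decide
  · rw [b1, b2]; decide

lemma of_X (M : BM) (h : Minor X M) :
    ∃ (r0 r1 r2 r3 : Fin M.m) (c0 c1 c2 c3 : Fin M.n), r0 < r1 ∧ r1 < r2 ∧ r2 < r3 ∧
      c0 < c1 ∧ c2 < c1 ∧ c1 < c3 ∧ M.e r0 c0 = true ∧ M.e r1 c1 = true ∧ M.e r2 c2 = true ∧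
      M.e r3 c3 = true := by
  obtain ⟨f, g, hf, -, hg, -, h⟩ := h
  obtain ⟨r0, c0, a0, b0, e0⟩ := h (0 : Fin 4) (0 : Fin 3) (by decide)
  obtain ⟨r1, c1, a1, b1, e1⟩ := h (1 : Fin 4) (1 : Fin 3) (by decide)
  obtain ⟨r2, c2, a2, b2, e2⟩ := h (2 : Fin 4) (0 : Fin 3) (by decide)
  obtain ⟨r3, c3, a3, b3, e3⟩ := h (3 : Fin 4) (2 : Fin 3) (by decide)
  refine ⟨r0, r1, r2, r3, c0, c1, c2, c3, lt_of_mono hf ?_, lt_of_mono hf ?_, lt_of_mono hf ?_,
    lt_of_mono hg ?_, lt_of_mono hg ?_, lt_of_mono hg ?_, e0, e1, e2, e3⟩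
  · rw [a0, a1]; decide
  · rw [a1, a2]; decide
  · rw [a2, a3]; decide
  · rw [b0, b1]; decide
  · rw [b2, b1]; decide
  · rw [b1, b3]; decide

lemma mem_av (M : BM) : M ∈ Av {D3, X} ↔ ¬ Chain M := by
  constructor
  · intro h hc
    exact h D3 (by simp) (d3_of_chain M hc)
  · intro h P hP hm
    rcases hP with rfl | rfl
    · exact h (chain_of_d3 M hm)
    · obtain ⟨r0, r1, r2, r3, c0, c1, c2, c3, a, b, c, d, e, f, e0, e1, e2, e3⟩ := of_X M hm
      exact h ⟨r0, r1, r3, c0, c1, c3, a, b.trans c, d, f, e0, e1, e3⟩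

lemma runs_le {k : ℕ} (w : Fin k → Bool) (T : Fin 3 → Fin k → Prop)
    (h1 : ∀ i, w i = false → ∃ t, T t i)
    (h2 : ∀ t i j l, T t i → T t l → i ≤ j → j ≤ l → w j = false) : runs w ≤ 3 := by
  classical
  unfold runs
  let φ : Fin k → Fin 3 := fun i => if h : w i = false then (h1 i h).choose else 0
  have hφ : ∀ i, w i = false → T (φ i) i := by
    intro i h
    simp only [φ, h, dif_pos]
    exact (h1 i h).choose_spec
  have key : ∀ i j : Fin k, w i = false → w j = false →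
      (∀ l : Fin k, l.val + 1 = j.val → w l = true) → φ i = φ j → ¬ i < j := by
    intro i j hi hj hl he hlt
    have hlt' : i.val < j.val := hlt
    have := hl ⟨j.val - 1, by omega⟩ (by simp; omega)
    have h3 := h2 (φ i) i ⟨j.val - 1, by omega⟩ j (hφ i hi) (he ▸ hφ j hj)
      (by rw [Fin.le_def]; simp; omega) (by rw [Fin.le_def]; simp)
    rw [h3] at this
    exact Bool.false_ne_true this
  calc _ ≤ (Finset.univ : Finset (Fin 3)).card := by
        apply Finset.card_le_card_of_injOn φ (by simp)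
        intro i hi j hj he
        simp only [Finset.coe_filter, Finset.mem_univ, true_and, Set.mem_ofPred_eq] at hi hj
        exact le_antisymm (not_lt.1 (key j i hj.1 hi.1 hi.2 he.symm))
          (not_lt.1 (key i j hi.1 hj.1 hj.2 he))
    _ = 3 := by simp

def Ty (M : BM) (t : Fin 3) (r : Fin M.m) (c : Fin M.n) : Prop :=
  ∃ (r1 r2 : Fin M.m) (c1 c2 : Fin M.n), M.e r1 c1 = true ∧ M.e r2 c2 = true ∧
    ((t = 0 ∧ r < r1 ∧ r1 < r2 ∧ c < c1 ∧ c1 < c2) ∨
     (t = 1 ∧ r1 < r ∧ r < r2 ∧ c1 < c ∧ c < c2) ∨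
     (t = 2 ∧ r1 < r2 ∧ r2 < r ∧ c1 < c2 ∧ c2 < c))

lemma ty_of (M : BM) (h : ¬ Chain M) (r : Fin M.m) (c : Fin M.n)
    (h' : Chain (setOne M r c)) : ∃ t, Ty M t r c := by
  obtain ⟨r0, r1, r2, c0, c1, c2, a, b, c', d, e0, e1, e2⟩ := h'
  simp only [setOne] at r0 r1 r2 c0 c1 c2 a b c' d e0 e1 e2
  by_cases h0 : r0 = r ∧ c0 = c
  · obtain ⟨rfl, rfl⟩ := h0
    rw [if_neg (fun h => a.ne' h.1)] at e1
    rw [if_neg (fun h => (a.trans b).ne' h.1)] at e2
    exact ⟨0, r1, r2, c1, c2, e1, e2, Or.inl ⟨rfl, a, b, c', d⟩⟩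
  rw [if_neg h0] at e0
  by_cases h1 : r1 = r ∧ c1 = c
  · obtain ⟨rfl, rfl⟩ := h1
    rw [if_neg (fun h => b.ne' h.1)] at e2
    exact ⟨1, r0, r2, c0, c2, e0, e2, Or.inr (Or.inl ⟨rfl, a, b, c', d⟩)⟩
  rw [if_neg h1] at e1
  by_cases h2 : r2 = r ∧ c2 = c
  · obtain ⟨rfl, rfl⟩ := h2
    exact ⟨2, r0, r1, c0, c1, e0, e1, Or.inr (Or.inr ⟨rfl, a, b, c', d⟩)⟩
  rw [if_neg h2] at e2
  exact absurd ⟨r0, r1, r2, c0, c1, c2, a, b, c', d, e0, e1, e2⟩ h

lemma ty_conv (M : BM) (h : ¬ Chain M) (t : Fin 3) (r r' s : Fin M.m) (c c' d : Fin M.n)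
    (h1 : Ty M t r c) (h2 : Ty M t r' c') (a1 : r ≤ s) (a2 : s ≤ r') (b1 : c ≤ d) (b2 : d ≤ c') :
    M.e s d = false := by
  by_contra hh
  have e : M.e s d = true := by simpa using hh
  obtain ⟨r1, r2, c1, c2, e1, e2, h1⟩ := h1
  obtain ⟨r1', r2', c1', c2', e1', e2', h2⟩ := h2
  apply h
  rcases h1 with ⟨rfl, x1, x2, x3, x4⟩ | ⟨rfl, x1, x2, x3, x4⟩ | ⟨rfl, x1, x2, x3, x4⟩ <;>
  rcases h2 with ⟨ht, y1, y2, y3, y4⟩ | ⟨ht, y1, y2, y3, y4⟩ | ⟨ht, y1, y2, y3, y4⟩ <;>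
  try (exact absurd ht (by decide))
  · exact ⟨s, r1', r2', d, c1', c2', a2.trans_lt y1, y2, b2.trans_lt y3, y4, e, e1', e2'⟩
  · exact ⟨r1, s, r2', c1, d, c2', x1.trans_le a1, a2.trans_lt y2, x3.trans_le b1,
      b2.trans_lt y4, e1, e, e2'⟩
  · exact ⟨r1, r2, s, c1, c2, d, x1, x2.trans_le a1, x3, x4.trans_le b1, e1, e2, e⟩

lemma bdd : Bdd (Av {D3, X}) := by
  refine ⟨3, fun M hM => ?_⟩
  have h : ¬ Chain M := (mem_av M).1 hM.1
  have h' : ∀ r c, M.e r c = false → ∃ t, Ty M t r c := fun r c e =>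
    ty_of M h r c (by have := hM.2 r c e; rw [mem_av] at this; exact not_not.1 this)
  refine ⟨fun r => runs_le _ (fun t c => Ty M t r c) (h' r) ?_,
    fun c => runs_le _ (fun t r => Ty M t r c) (fun r => h' r c) ?_⟩
  · intro t i j l a b x y
    exact ty_conv M h t r r r i l j a b le_rfl le_rfl x y
  · intro t i j l a b x y
    exact ty_conv M h t i l j c c c a b x y le_rfl le_rfl

def ent (n : ℕ) : Fin (3 * n) → Fin (2 * n + 1) → Bool := fun r c =>
  decide ((c.val = 0 ∧ r.val % 3 ≠ 1) ∨ (r.val % 3 = 0 ∧ c.val + 2 * (r.val / 3) + 1 = 2 * n) ∨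
    (r.val % 3 = 2 ∧ c.val + 2 * (r.val / 3) = 2 * n))

lemma ent_mem (n : ℕ) : (⟨3 * n, 2 * n + 1, ent n⟩ : BM) ∈ Av {D3p, X} := by
  intro P hP hm
  rcases hP with rfl | rfl
  · obtain ⟨f, g, hf, -, hg, hs, h⟩ := hm
    obtain ⟨r0, c0, a0, b0, e0⟩ := h (0 : Fin 3) (1 : Fin 4) (by decide)
    obtain ⟨r1, c1, a1, b1, e1⟩ := h (1 : Fin 3) (2 : Fin 4) (by decide)
    obtain ⟨r2, c2, a2, b2, e2⟩ := h (2 : Fin 3) (3 : Fin 4) (by decide)
    obtain ⟨c, hc⟩ := hs (0 : Fin 4)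
    have x1 : r0 < r1 := lt_of_mono hf (by rw [a0, a1]; decide)
    have x2 : r1 < r2 := lt_of_mono hf (by rw [a1, a2]; decide)
    have y0 : c < c0 := lt_of_mono hg (by rw [hc, b0]; decide)
    have y1 : c0 < c1 := lt_of_mono hg (by rw [b0, b1]; decide)
    have y2 : c1 < c2 := lt_of_mono hg (by rw [b1, b2]; decide)
    simp only [ent, decide_eq_true_eq] at e0 e1 e2
    rw [Fin.lt_def] at x1 x2 y0 y1 y2
    omega
  · obtain ⟨r0, r1, r2, r3, c0, c1, c2, c3, a, b, c, d, e, f, e0, e1, e2, e3⟩ := of_X _ hm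
    simp only [ent, decide_eq_true_eq] at e0 e1 e2 e3
    rw [Fin.lt_def] at a b c d e f
    omega

lemma not_bdd : ¬ Bdd (Av {D3p, X}) := by
  classical
  rintro ⟨B, hB⟩
  set n := B + 2 with hn
  let S : Set (Fin (3 * n) → Fin (2 * n + 1) → Bool) :=
    {e | (⟨3 * n, 2 * n + 1, e⟩ : BM) ∈ Av {D3p, X}}
  obtain ⟨e, he, hmax⟩ := (Set.toFinite S).exists_le_maximal (a := ent n) (ent_mem n)
  have hle : ∀ r c, ent n r c = true → e r c = true := by
    intro r c h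
    have := he r c
    rw [h] at this
    exact Bool.eq_true_of_true_le this
  have hcrit : Critical (Av {D3p, X}) ⟨3 * n, 2 * n + 1, e⟩ := by
    refine ⟨hmax.1, fun r c h0 hmem => ?_⟩
    have h1 : e ≤ fun i j => if i = r ∧ j = c then true else e i j := by
      intro i j
      by_cases h : i = r ∧ j = c
      · simp [h]
      · simp [h]
    have h2 := hmax.2 (y := fun i j => if i = r ∧ j = c then true else e i j) hmem h1 r c
    simp only [and_self, if_true] at h2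
    have h0' : e r c = false := h0
    rw [h0'] at h2
    exact absurd (Bool.eq_true_of_true_le h2) Bool.false_ne_true
  have hz : ∀ i, 1 ≤ i → (hi : i < n) → e ⟨3 * i + 1, by omega⟩ ⟨0, by omega⟩ = false := by
    intro i h1 hi
    by_contra hh
    have e0 : e ⟨3 * i + 1, by omega⟩ ⟨0, by omega⟩ = true := by simpa using hh
    refine hmax.1 X (by simp) ?_
    refine minor_of_sub X _ (by decide) (by decide)
      (![⟨3 * i - 1, by omega⟩, ⟨3 * i, by omega⟩, ⟨3 * i + 1, by omega⟩, ⟨3 * i + 2, by omega⟩] :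
        Fin 4 → Fin (3 * n))
      (![⟨0, by omega⟩, ⟨2 * n - 2 * i - 1, by omega⟩, ⟨2 * n - 2 * i, by omega⟩] :
        Fin 3 → Fin (2 * n + 1)) ?_ ?_ ?_
    · refine Fin.strictMono_iff_lt_succ.2 fun i => ?_
      fin_cases i <;> simp [Fin.lt_def] <;> omega
    · refine Fin.strictMono_iff_lt_succ.2 fun i => ?_
      fin_cases i <;> simp [Fin.lt_def] <;> omega
    · intro (a : Fin 4) (b : Fin 3) hab
      fin_cases a <;> fin_cases b <;> simp [X] at hab
      · apply hle; simp [ent]; omega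
      · apply hle; simp [ent]; omega
      · exact e0
      · apply hle; simp [ent]; omega
  have h3 := (hB _ hcrit).2 ⟨0, by show 0 < 2 * n + 1; omega⟩
  have h4 : (Finset.univ : Finset (Fin (B + 1))).card ≤
      runs (fun r : Fin (3 * n) => e r ⟨0, by omega⟩) := by
    unfold runs
    apply Finset.card_le_card_of_injOn (fun i : Fin (B + 1) => (⟨3 * (i.val + 1) + 1, by omega⟩ : Fin (3 * n)))
    · intro i _
      simp only [Finset.coe_filter, Finset.mem_univ, true_and, Set.mem_ofPred_eq]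
      refine ⟨hz (i.val + 1) (by omega) (by omega), fun j hj => hle _ _ ?_⟩
      simp only [ent, decide_eq_true_eq]
      have hj' : j.val + 1 = 3 * (i.val + 1) + 1 := hj
      refine Or.inl ⟨by simp, by omega⟩
    · intro i _ j _ h
      simp only [Fin.mk.injEq] at h
      exact Fin.ext (by omega)
  simp only [Finset.card_univ, Fintype.card_fin] at h4
  have h5 : runs (fun r : Fin (3 * n) => e r ⟨0, by omega⟩) ≤ B := h3
  omega

theorem result : ∃ (F : Set BM) (φ : BM → BM), F.Finite ∧ (∀ P ∈ F, Ins P (φ P)) ∧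
    Bdd (Av F) ∧ ¬ Bdd (Av (φ '' F)) := by
  refine ⟨{D3, X}, fun P => if P.m = 3 then D3p else P, by simp, ?_, bdd, ?_⟩
  · intro P hP
    rcases hP with rfl | rfl
    · show Ins D3 D3p
      refine ⟨(id : Fin 3 → Fin 3), (Fin.succ : Fin 3 → Fin 4), strictMono_id,
        Fin.strictMono_succ, ?_⟩
      show ∀ (i : Fin 3) (j : Fin 4), D3p.e i j = true ↔
        ∃ (i' : Fin 3) (j' : Fin 3), id i' = i ∧ j'.succ = j ∧ D3.e i' j' = true
      decide
    · show Ins X X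
      exact ⟨id, id, strictMono_id, strictMono_id, by simp⟩
  · have : (fun P : BM => if P.m = 3 then D3p else P) '' {D3, X} = {D3p, X} := by
      rw [Set.image_pair]
      rfl
    rw [this]
    exact not_bdd

end Pool.Agent.Results.MP_5adcc8_co.Unb
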